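import Pool.Agent.Helper45.U4.St2

/-!
# Project U4, module EXC: exclusion of the types
-/

set_option autoImplicit false

open Module Classical
open scoped LinearAlgebra.Projectivization

namespace Pool.Agent.Helper29.U4

open Pool.Agent.Helper45.U4 Pool.Agent.Helper53.PB

/-- for a singular point there is a singular point not perpendicular to it -/
theorem partner (h1 : StHF) {F V : Type} [Field F] [AddCommGroup V] [Module F V]
    (φ : Form F V) (hk : φ.kind = .hermitian) (hc : Nat.card F = 4) (X : ℙ F V)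
    (hX : φ.Sing X.rep) : ∃ Y : ℙ F V, φ.Sing Y.rep ∧ φ.f X.rep Y.rep ≠ 0 := by
  obtain ⟨⟨ω, hω⟩, -, hadd, hsm, hsy, hsi, h01, -⟩ := h1 φ hk hc
  have hx0 : φ.f X.rep X.rep = 0 := (hsi _).1 hX
  obtain ⟨w, hw⟩ := exists_pair φ hX X.rep_nonzero
  -- a scalar `c` for which `w + c x` is singular
  obtain ⟨c, hcs⟩ : ∃ c : F, φ.f (w + c • X.rep) (w + c • X.rep) = 0 := by
    have key : ∀ c : F, φ.f (w + c • X.rep) (w + c • X.rep) =
        φ.f w w + c * φ.f w X.rep + (c * φ.f w X.rep) ^ 2 := by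
      intro c
      rw [hadd, map_add, map_add, hsy w (c • X.rep), hsm, map_smul, map_smul, hx0, smul_zero,
        mul_zero, add_zero, smul_eq_mul]
    rcases h01 w with h | h
    · refine ⟨0, ?_⟩
      rw [key, h]
      ring
    · refine ⟨ω / φ.f w X.rep, ?_⟩
      rw [key, h, div_mul_cancel₀ _ hw, hω.sq]
      have := hω.two (1 + ω)
      linear_combination this
  have hf : φ.f (w + c • X.rep) X.rep = φ.f w X.rep := by
    rw [hadd, hsm, hx0, mul_zero, add_zero]
  have hy0 : w + c • X.rep ≠ 0 := by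
    intro h
    apply hw
    rw [← hf, h]
    exact φ.toPolar.zero_left _
  obtain ⟨k, hkk⟩ := Projectivization.exists_smul_eq_mk_rep F (w + c • X.rep) hy0
  refine ⟨Projectivization.mk F (w + c • X.rep) hy0, ?_, ?_⟩
  · rw [← hkk]
    exact φ.toPolar.sing_smul (k : F) _ ((hsi _).2 hcs)
  · rw [← hkk]
    have h2 : φ.f X.rep ((k : F) • (w + c • X.rep)) = (k : F) * φ.f X.rep (w + c • X.rep) := by
      rw [map_smul, smul_eq_mul]
    have h3 : φ.f X.rep (w + c • X.rep) = (φ.f w X.rep) ^ 2 := by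
      rw [hsy (w + c • X.rep) X.rep, hf]
    show φ.f X.rep ((k : F) • (w + c • X.rep)) ≠ 0
    rw [h2, h3]
    exact mul_ne_zero k.ne_zero (pow_ne_zero _ hw)

/-- a totally singular space of dimension three has two different points -/
theorem two_pts {F V : Type} [Field F] [AddCommGroup V] [Module F V] [FiniteDimensional F V]
    (U : Submodule F V) (hU : finrank F U = 3) :
    ∃ x y : ℙ F V, x ≠ y ∧ x.rep ∈ U ∧ y.rep ∈ U := by
  have hne : U ≠ ⊥ := by
    rintro rfl
    rw [finrank_bot] at hU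
    omega
  obtain ⟨v, hv, hv0⟩ := U.ne_bot_iff.1 hne
  have hlt : Submodule.span F {v} < U := by
    refine lt_of_le_of_ne ((Submodule.span_singleton_le_iff_mem _ _).2 hv) ?_
    intro h
    have := finrank_span_singleton (K := F) hv0
    rw [h, hU] at this
    omega
  obtain ⟨w, hw, hws⟩ := SetLike.exists_of_lt hlt
  have hw0 : w ≠ 0 := by
    rintro rfl
    exact hws (Submodule.zero_mem _)
  refine ⟨Projectivization.mk F v hv0, Projectivization.mk F w hw0, ?_, (rep_mk_mem hv0).2 hv,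
    (rep_mk_mem hw0).2 hw⟩
  intro h
  rw [Projectivization.mk_eq_mk_iff'] at h
  obtain ⟨a, ha⟩ := h
  apply hws
  have ha0 : a ≠ 0 := by
    rintro rfl
    rw [zero_smul] at ha
    exact hv0 ha.symm
  have : w = a⁻¹ • v := by
    rw [← ha, smul_smul, inv_mul_cancel₀ ha0, one_smul]
  rw [this]
  exact Submodule.smul_mem _ _ (Submodule.mem_span_singleton_self v)

section
variable {F V : Type} [Field F] [AddCommGroup V] [Module F V] [Finite F] [Finite V]
  [FiniteDimensional F V]

theorem part1 (h1 : StHF) (h2 : StEXF) (φ : Form F V) (f : ℙ F V → ℤ) (hs : Hs φ 3)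
    (h0 : ∀ y, 0 ≤ f y) (hsup : Sup φ.toPolar f) : ¬ ∀ U, φ.toPolar.Gen U → tf f U = 1 := by
  intro ht
  obtain ⟨U, hU, -⟩ := φ.toPolar.exists_gen_ge φ.toPolar.ts_bot
  obtain ⟨x, y, hxy, hx, hy⟩ := two_pts U (hs.gen U hU)
  -- one of the two points has weight `0`
  have hex : ∃ X : ℙ F V, X.rep ∈ U ∧ f X = 0 := by
    by_contra hcon
    push Not at hcon
    have h3 : 1 ≤ f x := by
      have := h0 x
      have := hcon x hx
      omega
    have h4 : 1 ≤ f y := by
      have := h0 y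
      have := hcon y hy
      omega
    have h5 : f x + f y ≤ tf f U := by
      unfold tf
      rw [← Finset.sum_pair hxy]
      apply Finset.sum_le_sum_of_subset_of_nonneg
      · intro z hz
        rw [Finset.mem_insert, Finset.mem_singleton] at hz
        rcases hz with rfl | rfl
        · exact mem_pts.2 hx
        · exact mem_pts.2 hy
      · intro z _ _
        exact h0 z
    rw [ht U hU] at h5
    omega
  obtain ⟨X, hXU, hX0⟩ := hex
  have hXs : φ.Sing X.rep := hU.1.1 _ hXU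
  obtain ⟨Y, hYs, hXY⟩ := partner h1 φ hs.kind hs.card X hXs
  refine h2 φ f 0 X Y ⟨hs, h0, hsup, hXs, hYs, hXY, hX0, by omega, by omega, ?_⟩
  intro W hW
  rw [ht W hW]
  simp

omit [Finite F] [Finite V] [FiniteDimensional F V] in
theorem minus (f : ℙ F V → ℤ) (h0 : ∀ y, 0 ≤ f y) (X : ℙ F V) (hX : f X ≠ 0) :
    ∀ y, 0 ≤ f y - del X y := by
  intro y
  unfold del
  split_ifs with h
  · subst h
    have := h0 y
    omega
  · have := h0 y
    omega

theorem part2 (h1 : StHF) (h2 : StEXF) (φ : Form F V) (f : ℙ F V → ℤ) (hs : Hs φ 3)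
    (h0 : ∀ y, 0 ≤ f y) (hsup : Sup φ.toPolar f) (X : ℙ F V) (hXs : φ.Sing X.rep) :
    ¬ ∀ U, φ.toPolar.Gen U → tf f U = 1 + (if X.rep ∈ U then 1 else 0) := by
  intro ht
  by_cases hX : f X = 0
  · obtain ⟨Y, hYs, hXY⟩ := partner h1 φ hs.kind hs.card X hXs
    refine h2 φ f 1 X Y ⟨hs, h0, hsup, hXs, hYs, hXY, hX, by omega, by omega, ?_⟩
    intro W hW
    rw [ht W hW]
    simp
  · refine part1 h1 h2 φ (fun y => f y - del X y) hs (minus f h0 X hX)
      (hsup.sub (sup_del hXs)) ?_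
    intro U hU
    rw [tf_sub, tf_del, ht U hU]
    ring

end

/-- **EXC** -/
theorem hEXC (h1 : StHF) (h2 : StEXF) : StEXC := by
  intro F V _ _ _ _ _ _ φ f hs h0 hsup
  refine ⟨part1 h1 h2 φ f hs h0 hsup, part2 h1 h2 φ f hs h0 hsup, ?_⟩
  intro X1 X2 hs1 hs2 hne ht
  by_cases hX1 : f X1 = 0
  · by_cases hX2 : f X2 = 0
    · refine h2 φ f 2 X1 X2 ⟨hs, h0, hsup, hs1, hs2, hne, hX1, fun _ => hX2, le_refl _, ?_⟩
      intro W hW
      rw [ht W hW]
      simp
    · refine part2 h1 h2 φ (fun y => f y - del X2 y) hs (minus f h0 X2 hX2)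
        (hsup.sub (sup_del hs2)) X1 hs1 ?_
      intro U hU
      rw [tf_sub, tf_del, ht U hU]
      ring
  · refine part2 h1 h2 φ (fun y => f y - del X1 y) hs (minus f h0 X1 hX1)
      (hsup.sub (sup_del hs1)) X2 hs2 ?_
    intro U hU
    rw [tf_sub, tf_del, ht U hU]
    ring

end Pool.Agent.Helper29.U4
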